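import Pool.Agent.Zk97.CB.PDefs
import Mathlib

/-!
# The coordinate ring of a smooth plane curve is a Dedekind domain

Module J of the project CB: for a field `k` and a monic irreducible polynomial `G` in two variables
over `k` whose curve is smooth, the ring `k[x,y]/(G)` is a Dedekind domain.
-/

set_option autoImplicit false
set_option linter.all false

open Polynomial

namespace Pool.Agent.Zk86.CB

open Pool.Agent.Zk97.CB

section
variable {k : Type} [Field k]

theorem coeff_dx (P : k[X][X]) (n : ℕ) : (dx P).coeff n = derivative (P.coeff n) := by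
  unfold dx
  rw [finset_sum_coeff]
  simp only [coeff_C_mul_X_pow]
  rw [Finset.sum_ite_eq]
  split_ifs with h
  · rfl
  · rw [Finset.mem_range, not_lt] at h
    rw [coeff_eq_zero_of_natDegree_lt (by omega), derivative_zero]

theorem dx_add (P Q : k[X][X]) : dx (P + Q) = dx P + dx Q := by
  ext1 n
  rw [coeff_dx, coeff_add, coeff_add, coeff_dx, coeff_dx, derivative_add]

theorem dx_mul (P Q : k[X][X]) : dx (P * Q) = dx P * Q + P * dx Q := by
  ext1 n
  rw [coeff_dx, coeff_add, coeff_mul, coeff_mul, coeff_mul, derivative_sum,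
    ← Finset.sum_add_distrib]
  refine Finset.sum_congr rfl fun x _ => ?_
  rw [derivative_mul, coeff_dx, coeff_dx]

theorem not_sq (n : Ideal k[X][X]) (hn : n ≠ ⊤) (G p q α β : k[X][X]) (hs : Smooth G)
    (hp : p ∈ n) (hq : q ∈ n) (h : G = α * p + β * q) : α ∉ n ∨ β ∉ n := by
  by_contra hc
  push Not at hc
  obtain ⟨hα, hβ⟩ := hc
  have h1 : G ∈ n := by
    rw [h]; exact n.add_mem (n.mul_mem_left _ hp) (n.mul_mem_left _ hq)
  have h2 : dx G ∈ n := by
    rw [h, dx_add, dx_mul, dx_mul]
    exact n.add_mem (n.add_mem (n.mul_mem_left _ hp) (n.mul_mem_right _ hα))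
      (n.add_mem (n.mul_mem_left _ hq) (n.mul_mem_right _ hβ))
  have h3 : derivative G ∈ n := by
    rw [h, derivative_add, derivative_mul, derivative_mul]
    exact n.add_mem (n.add_mem (n.mul_mem_left _ hp) (n.mul_mem_right _ hα))
      (n.add_mem (n.mul_mem_left _ hq) (n.mul_mem_right _ hβ))
  obtain ⟨u, v, s, e⟩ := hs
  apply hn
  rw [Ideal.eq_top_iff_one, ← e]
  exact n.add_mem (n.add_mem (n.mul_mem_left _ h1) (n.mul_mem_left _ h2)) (n.mul_mem_left _ h3)

theorem gens (n : Ideal k[X][X]) (p : k[X]) (hp : Irreducible p) (hpn : C p ∈ n) :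
    ∃ q : k[X][X], q ∈ n ∧ ∀ f ∈ n, ∃ a b : k[X][X], f = a * C p + b * q := by
  haveI hmax : (Ideal.span {p} : Ideal k[X]).IsMaximal :=
    PrincipalIdealRing.isMaximal_of_irreducible hp
  letI : Field (k[X] ⧸ (Ideal.span {p} : Ideal k[X])) := Ideal.Quotient.field _
  set π : k[X][X] →+* (k[X] ⧸ (Ideal.span {p} : Ideal k[X]))[X] :=
    mapRingHom (Ideal.Quotient.mk (Ideal.span {p})) with hπ
  have hsurj : Function.Surjective π := Polynomial.map_surjective _ Ideal.Quotient.mk_surjective
  have hker : ∀ f : k[X][X], π f = 0 → C p ∣ f := by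
    intro f hf
    rw [C_dvd_iff_dvd_coeff]
    intro i
    have := congrArg (fun g => coeff g i) hf
    simp only [hπ, coe_mapRingHom, coeff_map, coeff_zero] at this
    rwa [Ideal.Quotient.eq_zero_iff_mem, Ideal.mem_span_singleton] at this
  obtain ⟨g, hg⟩ := (IsPrincipalIdealRing.principal (n.map π)).principal
  have hgm : g ∈ n.map π := by
    rw [hg]; exact Submodule.mem_span_singleton_self g
  rw [Ideal.mem_map_iff_of_surjective π hsurj] at hgm
  obtain ⟨q, hqn, rfl⟩ := hgm
  refine ⟨q, hqn, fun f hf => ?_⟩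
  have h1 : π f ∈ n.map π := Ideal.mem_map_of_mem π hf
  rw [hg] at h1
  obtain ⟨c, hc⟩ := Submodule.mem_span_singleton.mp h1
  obtain ⟨b, rfl⟩ := hsurj c
  rw [smul_eq_mul, ← map_mul] at hc
  have h2 : π (f - b * q) = 0 := by
    rw [map_sub, hc, sub_self]
  obtain ⟨a, ha⟩ := hker _ h2
  exact ⟨a, b, by linear_combination ha⟩

end

/-- the coordinate ring of a smooth plane curve is a Dedekind domain -/
theorem t_J : StJ := by
  intro k _ G hm hirr hsm
  have hprime : Prime G := hirr.prime
  haveI : IsDomain (AdjoinRoot G) := AdjoinRoot.isDomain_of_prime hprime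
  haveI : Module.Finite k[X] (AdjoinRoot G) := hm.finite_adjoinRoot
  haveI : IsNoetherianRing (AdjoinRoot G) := IsNoetherianRing.of_finite k[X] (AdjoinRoot G)
  have hdeg : G.degree ≠ 0 := by
    intro h0
    have h1 : G.natDegree = 0 := natDegree_eq_zero_iff_degree_le_zero.mpr h0.le
    have h2 : G = 1 := hm.natDegree_eq_zero.mp h1
    rw [h2] at hirr
    exact hirr.not_isUnit isUnit_one
  have hinj : Function.Injective (algebraMap k[X] (AdjoinRoot G)) := by
    rw [AdjoinRoot.algebraMap_eq]
    exact AdjoinRoot.of.injective_of_degree_ne_zero hdeg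
  haveI : IsDedekindDomainDvr (AdjoinRoot G) := by
    refine { toIsNoetherian := inferInstance, is_dvr_at_nonzero_prime := ?_ }
    intro P hP0 hP
    have hc0 : P.comap (algebraMap k[X] (AdjoinRoot G)) ≠ ⊥ := by
      obtain ⟨x, hx, hx0⟩ := Submodule.exists_mem_ne_zero_of_ne_bot hP0
      exact Ideal.comap_ne_bot_of_integral_mem hx0 hx (Algebra.IsIntegral.isIntegral x)
    haveI hcp : (P.comap (algebraMap k[X] (AdjoinRoot G))).IsPrime := Ideal.comap_isPrime _ _
    obtain ⟨p, hp⟩ := (IsPrincipalIdealRing.principal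
      (P.comap (algebraMap k[X] (AdjoinRoot G)))).principal
    have hp0 : p ≠ 0 := by
      rintro rfl
      apply hc0
      rw [hp]
      exact Ideal.span_singleton_eq_bot.mpr rfl
    have hpp : Prime p := by
      have : (Ideal.span {p} : Ideal k[X]).IsPrime := by
        have h := hcp
        rw [hp] at h
        exact h
      exact (Ideal.span_singleton_prime hp0).mp this
    set n : Ideal k[X][X] := P.comap (AdjoinRoot.mk G) with hn
    have hpn : C p ∈ n := by
      rw [hn, Ideal.mem_comap, AdjoinRoot.mk_C]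
      have : p ∈ P.comap (algebraMap k[X] (AdjoinRoot G)) := by
        rw [hp]; exact Submodule.mem_span_singleton_self p
      exact this
    obtain ⟨q, hqn, hgen⟩ := gens n p hpp.irreducible hpn
    have hGn : G ∈ n := by
      rw [hn, Ideal.mem_comap, AdjoinRoot.mk_self]; exact P.zero_mem
    obtain ⟨α, β, hG⟩ := hgen G hGn
    have hntop : n ≠ ⊤ := (Ideal.comap_isPrime (AdjoinRoot.mk G) P).ne_top
    have hor := not_sq n hntop G (C p) q α β hsm hpn hqn hG
    -- the local ring
    set S := Localization.AtPrime P with hS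
    haveI : IsNoetherianRing S := IsLocalization.isNoetherianRing P.primeCompl S inferInstance
    haveI : IsDomain S := IsLocalization.isDomain_localization P.primeCompl_le_nonZeroDivisors
    have hmap : P.map (algebraMap (AdjoinRoot G) S) = IsLocalRing.maximalIdeal S :=
      Localization.AtPrime.map_eq_maximalIdeal
    have hnf : ¬ IsField S := by
      intro hf
      rw [IsLocalRing.isField_iff_maximalIdeal_eq, ← hmap,
        Ideal.map_eq_bot_iff_of_injective
          (IsLocalization.injective S P.primeCompl_le_nonZeroDivisors)] at hf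
      exact hP0 hf
    set φ : k[X][X] →+* S := (algebraMap (AdjoinRoot G) S).comp (AdjoinRoot.mk G) with hφ
    have hφG : φ α * φ (C p) + φ β * φ q = 0 := by
      rw [← map_mul, ← map_mul, ← map_add, ← hG, hφ, RingHom.comp_apply, AdjoinRoot.mk_self,
        map_zero]
    have hunit : ∀ f : k[X][X], f ∉ n → IsUnit (φ f) := by
      intro f hf
      exact IsLocalization.map_units S (⟨AdjoinRoot.mk G f, hf⟩ : P.primeCompl)
    have hmaxspan : ∀ g : S, (∀ f ∈ n, g ∣ φ f) → g ∈ IsLocalRing.maximalIdeal S →
        (IsLocalRing.maximalIdeal S).IsPrincipal := by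
      intro g hg hgm
      refine ⟨⟨g, ?_⟩⟩
      apply le_antisymm
      · rw [← hmap, Ideal.map_le_iff_le_comap]
        intro x hx
        obtain ⟨f, rfl⟩ := AdjoinRoot.mk_surjective x
        exact Ideal.mem_span_singleton.mpr (hg f hx)
      · exact (Ideal.span_singleton_le_iff_mem _).mpr hgm
    have hmem : ∀ f ∈ n, φ f ∈ IsLocalRing.maximalIdeal S := by
      intro f hf
      rw [← hmap]
      exact Ideal.mem_map_of_mem _ hf
    have hprin : (IsLocalRing.maximalIdeal S).IsPrincipal := by
      rcases hor with h | h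
      · refine hmaxspan (φ q) (fun f hf => ?_) (hmem q hqn)
        obtain ⟨a, b, rfl⟩ := hgen f hf
        have h1 : φ q ∣ φ (C p) := by
          have h2 : φ q ∣ φ α * φ (C p) := ⟨-φ β, by linear_combination hφG⟩
          exact (hunit α h).dvd_mul_left.mp h2
        rw [map_add, map_mul, map_mul]
        exact dvd_add (Dvd.dvd.mul_left h1 _) (Dvd.intro_left _ rfl)
      · refine hmaxspan (φ (C p)) (fun f hf => ?_) (hmem _ hpn)
        obtain ⟨a, b, rfl⟩ := hgen f hf
        have h1 : φ (C p) ∣ φ q := by
          have h2 : φ (C p) ∣ φ β * φ q := ⟨-φ α, by linear_combination hφG⟩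
          exact (hunit β h).dvd_mul_left.mp h2
        rw [map_add, map_mul, map_mul]
        exact dvd_add (Dvd.intro_left _ rfl) (Dvd.dvd.mul_left h1 _)
    exact ((IsDiscreteValuationRing.TFAE S hnf).out 0 4).mpr hprin
  infer_instance

end Pool.Agent.Zk86.CB
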