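import Mathlib

/-!
# Places of the function field of a plane curve: residue fields and existence
-/

set_option autoImplicit false

open Polynomial

namespace Pool.Agent.Zk86.CB.P0

variable {K L : Type} [Field K] [Field L] [Algebra K L] {f : K[X][X]}

section gen

variable [Algebra (AdjoinRoot f) L]

/-- the function `x` -/
noncomputable def xx (f : K[X][X]) (L : Type) [Field L] [Algebra (AdjoinRoot f) L] : L :=
  algebraMap (AdjoinRoot f) L (AdjoinRoot.of f X)

lemma map_of (hK : ∀ c : K, algebraMap K L c = algebraMap (AdjoinRoot f) L (AdjoinRoot.of f (C c))) (p : K[X]) :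
    algebraMap (AdjoinRoot f) L (AdjoinRoot.of f p) = aeval (xx f L) p := by
  have h : ((algebraMap (AdjoinRoot f) L).comp (AdjoinRoot.of f)) = (aeval (xx f L) : K[X] →ₐ[K] L).toRingHom := by
    refine Polynomial.ringHom_ext (fun c => ?_) ?_
    · simp [hK c]
    · simp [xx]
  exact congrArg (fun g : K[X] →+* L => g p) h

lemma int_adj (hf : f.Monic)
    (hK : ∀ c : K, algebraMap K L c = algebraMap (AdjoinRoot f) L (AdjoinRoot.of f (C c))) (a : AdjoinRoot f) :
    IsIntegral (Algebra.adjoin K {xx f L}) (algebraMap (AdjoinRoot f) L a) := by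
  set A := Algebra.adjoin K {xx f L} with hA
  have hmem : ∀ p : K[X], aeval (xx f L) p ∈ A := fun p => by
    rw [hA, Algebra.adjoin_singleton_eq_range_aeval]
    exact ⟨p, rfl⟩
  have hof : ∀ p : K[X], IsIntegral A (algebraMap (AdjoinRoot f) L (AdjoinRoot.of f p)) := fun p => by
    rw [map_of hK p]
    exact isIntegral_algebraMap (x := (⟨_, hmem p⟩ : A))
  have hy : IsIntegral A (algebraMap (AdjoinRoot f) L (AdjoinRoot.root f)) := by
    let g : K[X] →+* A := ((aeval (xx f L) : K[X] →ₐ[K] L).codRestrict A hmem).toRingHom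
    refine ⟨f.map g, hf.map g, ?_⟩
    rw [eval₂_map]
    have h1 : (algebraMap A L).comp g = (algebraMap (AdjoinRoot f) L).comp (AdjoinRoot.of f) := by
      ext p
      · simp only [RingHom.comp_apply]
        rw [map_of hK]
        rfl
      · simp only [RingHom.comp_apply]
        rw [map_of hK]
        rfl
    rw [h1, ← hom_eval₂, AdjoinRoot.eval₂_root, map_zero]
  induction a using AdjoinRoot.induction_on with
  | ih p =>
    induction p using Polynomial.induction_on' with
    | add p q hp hq =>
      rw [map_add, map_add]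
      exact hp.add hq
    | monomial n c =>
      rw [← C_mul_X_pow_eq_monomial, map_mul, map_pow, AdjoinRoot.mk_X, AdjoinRoot.mk_C, map_mul, map_pow]
      exact (hof c).mul (hy.pow n)

lemma alg_adj [IsFractionRing (AdjoinRoot f) L] (hf : f.Monic)
    (hK : ∀ c : K, algebraMap K L c = algebraMap (AdjoinRoot f) L (AdjoinRoot.of f (C c))) :
    Algebra.IsAlgebraic (Algebra.adjoin K {xx f L}) L := by
  refine ⟨fun z => ?_⟩
  obtain ⟨a, b, rfl⟩ : ∃ a b : AdjoinRoot f, algebraMap (AdjoinRoot f) L a / algebraMap (AdjoinRoot f) L b = z := by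
    obtain ⟨a, s, h⟩ := IsLocalization.exists_mk'_eq (nonZeroDivisors (AdjoinRoot f)) z
    refine ⟨a, s, ?_⟩
    rw [← h, IsFractionRing.mk'_eq_div]
  rw [div_eq_mul_inv]
  exact (int_adj hf hK a).isAlgebraic.mul ((int_adj hf hK b).isAlgebraic.inv)

lemma trdeg_le [IsFractionRing (AdjoinRoot f) L] (hf : f.Monic)
    (hK : ∀ c : K, algebraMap K L c = algebraMap (AdjoinRoot f) L (AdjoinRoot.of f (C c))) :
    Algebra.trdeg K L ≤ 1 := by
  have := alg_adj hf hK
  have h := Algebra.IsAlgebraic.trdeg_le_cardinalMk K ({xx f L} : Set L)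
  simpa using h

lemma alg_of_trans [IsFractionRing (AdjoinRoot f) L] (hf : f.Monic)
    (hK : ∀ c : K, algebraMap K L c = algebraMap (AdjoinRoot f) L (AdjoinRoot.of f (C c)))
    {c : L} (hc : Transcendental K c) : Algebra.IsAlgebraic (Algebra.adjoin K {c}) L := by
  have h1 : AlgebraicIndependent K (fun _ : Unit => c) := algebraicIndependent_unique_type_iff.mpr hc
  have h2 := h1.isTranscendenceBasis_of_trdeg_le_of_finite (by simpa using trdeg_le hf hK)
  have h3 := h2.isAlgebraic
  rwa [Set.range_const] at h3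

end gen

/-- valuation rings are integrally closed -/
lemma mem_of_int (O : ValuationSubring L) {A : Subalgebra K L} (hA : ∀ a ∈ A, a ∈ O) {w : L}
    (hw : IsIntegral A w) : w ∈ O := by
  obtain ⟨P, hP, h0⟩ := hw
  let g : A →+* O := (A.val.toRingHom).codRestrict O.toSubring fun a => hA _ a.2
  have h1 : IsIntegral O w := by
    refine ⟨P.map g, hP.map g, ?_⟩
    rw [eval₂_map]
    exact h0
  obtain ⟨y, hy⟩ := IsIntegrallyClosed.isIntegral_iff.1 h1
  rw [← hy]
  exact y.2

lemma res_alg [Algebra (AdjoinRoot f) L] [IsFractionRing (AdjoinRoot f) L] (hf : f.Monic)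
    (hK : ∀ c : K, algebraMap K L c = algebraMap (AdjoinRoot f) L (AdjoinRoot.of f (C c)))
    (O : ValuationSubring L) (hO : ∀ c : K, algebraMap K L c ∈ O) (hO' : O ≠ ⊤)
    (z : IsLocalRing.ResidueField O) : ∃ p : K[X], p ≠ 0 ∧
      p.eval₂ ((IsLocalRing.residue O).comp ((algebraMap K L).codRestrict O.toSubring hO)) z = 0 := by
  by_contra hcon
  push Not at hcon
  obtain ⟨c, rfl⟩ := IsLocalRing.residue_surjective z
  -- values of polynomials
  have hval : ∀ p : K[X], ((p.eval₂ ((algebraMap K L).codRestrict O.toSubring hO) c : O) : L) =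
      aeval (c : L) p := by
    intro p
    have := hom_eval₂ p ((algebraMap K L).codRestrict O.toSubring hO) (algebraMap O L) c
    exact this
  have hunit : ∀ p : K[X], p ≠ 0 → IsUnit (p.eval₂ ((algebraMap K L).codRestrict O.toSubring hO) c : O) := by
    intro p hp
    have h1 := hcon p hp
    rw [← hom_eval₂] at h1
    by_contra h2
    exact h1 ((IsLocalRing.residue_eq_zero_iff _).2 ((IsLocalRing.mem_maximalIdeal _).2 h2))
  have htr : Transcendental K (c : L) := by
    rw [transcendental_iff]
    intro p hp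
    by_contra h0
    have h1 := hunit p h0
    rw [← hval p] at hp
    have h2 : (p.eval₂ ((algebraMap K L).codRestrict O.toSubring hO) c : O) = 0 := Subtype.ext hp
    rw [h2] at h1
    exact not_isUnit_zero h1
  have halg := alg_of_trans hf hK htr
  apply hO'
  rw [eq_top_iff]
  intro y _
  have hA : ∀ a ∈ Algebra.adjoin K {(c : L)}, a ∈ O := by
    intro a ha
    rw [Algebra.adjoin_singleton_eq_range_aeval] at ha
    obtain ⟨p, rfl⟩ := ha
    have := hval p
    show aeval (c : L) p ∈ O
    rw [← this]
    exact Subtype.mem _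
  obtain ⟨a, ha0, ha⟩ := (halg.isAlgebraic y).exists_integral_multiple
  have h1 := mem_of_int O hA ha
  obtain ⟨a, ha'⟩ := a
  rw [Algebra.adjoin_singleton_eq_range_aeval] at ha'
  obtain ⟨p, hp⟩ := ha'
  have hp : aeval (c : L) p = a := hp
  have hp0 : p ≠ 0 := by
    rintro rfl
    apply ha0
    apply Subtype.ext
    show a = 0
    rw [← hp, map_zero]
  obtain ⟨u, hu⟩ := hunit p hp0
  have h2 : ((↑(u⁻¹) : O) : L) * a = 1 := by
    rw [← hp, ← hval p, ← hu]
    exact congrArg (fun t : O => (t : L)) (u.inv_mul)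
  have h3 : y = ((↑(u⁻¹) : O) : L) * (a * y) := by
    rw [← mul_assoc, h2, one_mul]
  rw [h3]
  exact O.mul_mem _ _ (Subtype.mem _) h1

lemma trans_xx [Algebra (AdjoinRoot f) L] [IsFractionRing (AdjoinRoot f) L] (hf : f.Monic)
    (hd : 0 < f.natDegree)
    (hK : ∀ c : K, algebraMap K L c = algebraMap (AdjoinRoot f) L (AdjoinRoot.of f (C c))) :
    Transcendental K (xx f L) := by
  rw [transcendental_iff]
  intro p hp
  rw [← map_of hK p] at hp
  have h1 := IsFractionRing.injective (AdjoinRoot f) L (hp.trans (map_zero _).symm)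
  have hdeg : f.degree ≠ 0 := by
    rw [degree_eq_natDegree hf.ne_zero]
    exact_mod_cast hd.ne'
  exact AdjoinRoot.of.injective_of_degree_ne_zero hdeg (h1.trans (map_zero _).symm)

lemma ex_place {x : L} (hx : Transcendental K x) :
    ∃ O : ValuationSubring L, (∀ c : K, algebraMap K L c ∈ O) ∧ x ∉ O := by
  by_contra hcon
  push Not at hcon
  have h := iInf_valuationSubring_superset (K := L) (s := Set.range (algebraMap K L))
  have h1 : x ∈ (⨅ V : {V : ValuationSubring L // Set.range (algebraMap K L) ⊆ V.toSubring}, V.1.toSubring) := by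
    rw [Subring.mem_iInf]
    intro V
    exact hcon V.1 fun c => V.2 ⟨c, rfl⟩
  rw [h] at h1
  have h2 : IsIntegral (Subring.closure (Set.range (algebraMap K L))) x := h1
  have h3 : Subring.closure (Set.range (algebraMap K L)) = (algebraMap K L).range := by
    rw [← RingHom.coe_range, Subring.closure_eq]
  rw [h3] at h2
  obtain ⟨P, hP, h0⟩ := h2
  have hsurj : Function.Surjective (algebraMap K L).rangeRestrict := (algebraMap K L).rangeRestrict_surjective
  obtain ⟨Q, hQ, -, hQm⟩ := lifts_and_natDegree_eq_and_monic (f := (algebraMap K L).rangeRestrict)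
    (p := P) ((mem_lifts P).2 (map_surjective _ hsurj P)) hP
  have h4 : IsIntegral K x := by
    refine ⟨Q, hQm, ?_⟩
    rw [← hQ, eval₂_map] at h0
    exact h0
  exact hx h4.isAlgebraic

end Pool.Agent.Zk86.CB.P0
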