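import Pool.Agent.Zk86.CB.P0
import Pool.Agent.Zk52.CB.P1

/-!
# Places of the function field of a plane curve: the three parts together
-/

set_option autoImplicit false

open Polynomial

namespace Pool.Agent.Zk86.CB

open Pool.Agent.Zk86.CB.P0

theorem places (K L : Type) [Field K] [CharZero K] [Field L] [Algebra K L] (f : K[X][X]) (hf : f.Monic)
    (hd : 0 < f.natDegree) (hirr : Irreducible f) [Algebra (AdjoinRoot f) L] [IsFractionRing (AdjoinRoot f) L]
    (hK : ∀ c : K, algebraMap K L c = algebraMap (AdjoinRoot f) L (AdjoinRoot.of f (C c))) :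
    (∀ t : L, {O : ValuationSubring L | (∀ c : K, algebraMap K L c ∈ O) ∧ t ∉ O}.Finite) ∧
    (∀ O : ValuationSubring L, (hO : ∀ c : K, algebraMap K L c ∈ O) → O ≠ ⊤ →
      ∀ z : IsLocalRing.ResidueField O, ∃ p : K[X], p ≠ 0 ∧
        p.eval₂ ((IsLocalRing.residue O).comp ((algebraMap K L).codRestrict O.toSubring hO)) z = 0) ∧
    (∃ O : ValuationSubring L, (∀ c : K, algebraMap K L c ∈ O) ∧
      algebraMap (AdjoinRoot f) L (AdjoinRoot.of f X) ∉ O) :=
  ⟨fun t => Pool.Agent.Zk52.CB.t_P1 K L f hirr hK t, fun O hO hO' z => res_alg hf hK O hO hO' z,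
    ex_place (trans_xx hf hd hK)⟩

end Pool.Agent.Zk86.CB
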