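import Pool.Agent.Zk97.CB.GDefs
import Pool.Agent.Zk86.CB.P1

/-!
# Places of the function field of a plane curve
-/

set_option autoImplicit false

open Polynomial

namespace Pool.Agent.Zk86.CB

open Pool.Agent.Zk97.CB

/-- The statement `StP`. -/
theorem t_P : StP := by
  intro K L _ _ _ _ f hf hd hirr _ _ hK
  exact places K L f hf hd hirr hK

end Pool.Agent.Zk86.CB
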